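import Pool.Agent.Q179.KN.Final

/-!
# The complete graph scenarios `K_n`, `n ≥ 5`, are not Shannon-complete

Definitions (`Pool.Agent.Q179.KN.Defs`): `entropy` (Shannon entropy, base `2`, of a random variable with
countable range, possibly infinite), `IsPolymatroid`, `IsEntropic` (discrete random variables with countable
ranges and finite entropies on a probability space), `ShannonComplete M` (every linear inequality for the
`h(S)`, `S ∈ M`, which holds for all entropic polymatroids holds for all polymatroids), `completeGraph n` (the
scenario `K_n`: all subsets with at most two elements).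

Proof.  For random variables `A, B, C, D, G`

`2 H(AB) + H(CD) + H(C) + 2 H(B) + 2 H(A) + H(DG) + 4 H(CG) + 5 H(G)`
`≤ 3 H(BC) + 3 H(AC) + H(BD) + H(AD) + 5 H(AG) + 5 H(BG)`.

It follows from the inequality of Zhang and Yeung for `A, B, C, D`, whose terms with three variables are
`- H(ABD) - 4 H(ABC)`, and `H(CG) ≤ H(ABC) + H(G|AB)`, `H(DG) ≤ H(ABD) + H(G|AB)`,
`H(ABG) ≤ H(AG) + H(BG) - H(G)`.  If `G` is parallel to the pair `AB` then it becomes the inequality of Zhang
and Yeung, so it fails for a polymatroid.  (For finite ranges the inequality of Zhang and Yeung is in the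
starting library; countable ranges by truncation.)
-/

set_option autoImplicit false

namespace Pool.Agent.Results.MP_7216ee_lc.CompleteGraphs

open Pool.Agent.Q179.KN

/-- * The complete graph scenario `K_n` is not Shannon-complete for every `n ≥ 5` (so `K_n` is not
  Shannon-complete for all `n`).
* More generally, a scenario on `{1, …, n}` which contains all pairs (and single elements, and the empty set) of
  some set of at least five indices is not Shannon-complete. -/
theorem result :
    (∀ n : ℕ, 5 ≤ n → ¬ ShannonComplete (completeGraph n)) ∧
    (∀ (n : ℕ) (M : Set (Finset (Fin n))) (I : Finset (Fin n)), 5 ≤ I.card →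
      (∀ S : Finset (Fin n), S ⊆ I → S.card ≤ 2 → S ∈ M) → ¬ ShannonComplete M) :=
  ⟨fun n hn => not_complete_of_five _ Finset.univ (by simpa using hn) fun _ _ h => h,
    fun _ M I hI hM => not_complete_of_five M I hI hM⟩

end Pool.Agent.Results.MP_7216ee_lc.CompleteGraphs
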